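import Pool.Agent.Q217.FK.Sym

/-!
# Boundary touching of the interface: all four sides, blocks, means (helper217)
-/

set_option autoImplicit false

namespace Pool.Agent.Q217.FK

open H974 H985BT H985IL Finset

/-- the four sides of the rectangle `[0, m + 1/2] × [0, k + 1/2]` -/
inductive Side
  | right
  | lower
  | upper
  | left

/-- the interface touches the side `s` at distance `h` from the end of the interface on this side (the lower right corner
for `right` and `lower`, the upper left corner for `upper` and `left`): on the free sides `right` and `upper` it passes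
between the vertex `(m, h)` or `(h, k)` and a dual vertex of the side, on the wired sides `lower` and `left` it passes
between the dual vertex `(m - h, 0)` or `(0, k - h)` and a vertex of the side -/
def Touch : Side → ℕ → ℕ → Finset Edg → ℕ → Prop
  | Side.right, m, k, ω, h => ∃ f : Vtx, f.1 = m ∧ (((m : ℤ), (h : ℤ)), f) ∈ Interface m k ω
  | Side.lower, m, k, ω, h => ∃ v : Vtx, v.2 = 0 ∧ (v, ((m : ℤ) - h, (0 : ℤ))) ∈ Interface m k ω
  | Side.upper, m, k, ω, h => ∃ f : Vtx, f.2 = k ∧ (((h : ℤ), (k : ℤ)), f) ∈ Interface m k ω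
  | Side.left, m, k, ω, h => ∃ v : Vtx, v.1 = 0 ∧ (v, ((0 : ℤ), (k : ℤ) - h)) ∈ Interface m k ω

/-- the interface touches the side `s` in the block `[i r, (i + 1) r)` -/
def TouchBlock (s : Side) (m k : ℕ) (ω : Finset Edg) (r i : ℕ) : Prop :=
  ∃ h : ℕ, i * r ≤ h ∧ h < (i + 1) * r ∧ Touch s m k ω h

/-- the number of the blocks `[i r, (i + 1) r)`, `n ≤ i < 2 n`, of the side `s` which the interface touches -/
noncomputable def blocks (s : Side) (m k : ℕ) (ω : Finset Edg) (n r : ℕ) : ℕ :=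
  Set.ncard {i : ℕ | n ≤ i ∧ i < 2 * n ∧ TouchBlock s m k ω r i}

lemma touch_right (m k : ℕ) (ω : Finset Edg) : Touch Side.right m k ω = TouchRight m k ω := rfl
lemma touch_lower (m k : ℕ) (ω : Finset Edg) : Touch Side.lower m k ω = TouchLower m k ω := rfl

lemma lower_star {m k : ℕ} {ω : Finset Edg} (hω : ω ⊆ bulk m k) :
    Touch Side.lower m k ω = Touch Side.right k m (star m k ω) := by
  funext h
  apply propext
  show (∃ v : Vtx, v.2 = 0 ∧ (v, ((m : ℤ) - h, (0 : ℤ))) ∈ Interface m k ω) ↔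
    ∃ f : Vtx, f.1 = k ∧ (((k : ℤ), (h : ℤ)), f) ∈ Interface k m (star m k ω)
  have e1 : phi m k ((m : ℤ) - h, (0 : ℤ)) = ((k : ℤ), (h : ℤ)) := by
    simp [phi]
  constructor
  · rintro ⟨v, hv, h1⟩
    rw [interface_star hω, e1] at h1
    refine ⟨phi m k v, ?_, h1⟩
    simp [phi, hv]
  · rintro ⟨f, hf, h1⟩
    refine ⟨phi k m f, ?_, ?_⟩
    · simp [phi, hf]
    · rw [interface_star hω, e1, phi_phi]
      exact h1

lemma upper_flip {m k : ℕ} {ω : Finset Edg} :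
    Touch Side.upper m k ω = Touch Side.right k m (flip ω) := by
  funext h
  apply propext
  show (∃ f : Vtx, f.2 = k ∧ (((h : ℤ), (k : ℤ)), f) ∈ Interface m k ω) ↔
    ∃ f : Vtx, f.1 = k ∧ (((k : ℤ), (h : ℤ)), f) ∈ Interface k m (flip ω)
  constructor
  · rintro ⟨f, hf, h1⟩
    rw [interface_flip] at h1
    exact ⟨tp f, hf, h1⟩
  · rintro ⟨f, hf, h1⟩
    refine ⟨tp f, hf, ?_⟩
    rw [interface_flip]
    exact h1

lemma left_flip {m k : ℕ} {ω : Finset Edg} :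
    Touch Side.left m k ω = Touch Side.lower k m (flip ω) := by
  funext h
  apply propext
  show (∃ v : Vtx, v.1 = 0 ∧ (v, ((0 : ℤ), (k : ℤ) - h)) ∈ Interface m k ω) ↔
    ∃ v : Vtx, v.2 = 0 ∧ (v, ((k : ℤ) - h, (0 : ℤ))) ∈ Interface k m (flip ω)
  constructor
  · rintro ⟨f, hf, h1⟩
    rw [interface_flip] at h1
    exact ⟨tp f, hf, h1⟩
  · rintro ⟨f, hf, h1⟩
    refine ⟨tp f, hf, ?_⟩
    rw [interface_flip]
    exact h1

/-- every event for the touching points of a side has the probability of the corresponding event for the right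
side, of the same or of the transposed rectangle -/
lemma transfer (s : Side) (m k : ℕ) : ∃ m' k' : ℕ, ((m' = m ∧ k' = k) ∨ (m' = k ∧ k' = m)) ∧
    ∀ P : (ℕ → Prop) → Prop, rcP 1 m k (fun ω => P (Touch s m k ω)) =
      rcP 1 m' k' (fun ω => P (TouchRight m' k' ω)) := by
  have hlow : ∀ m k : ℕ, ∀ P : (ℕ → Prop) → Prop, rcP 1 m k (fun ω => P (Touch Side.lower m k ω)) =
      rcP 1 k m (fun ω => P (TouchRight k m ω)) := by
    intro m k P
    refine Eq.trans ?_ (rcP_star m k (fun ω => P (TouchRight k m ω)))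
    apply rcP_congr
    intro ω hω
    rw [lower_star hω]
    rfl
  cases s with
  | right => exact ⟨m, k, Or.inl ⟨rfl, rfl⟩, fun P => rfl⟩
  | lower => exact ⟨k, m, Or.inr ⟨rfl, rfl⟩, fun P => hlow m k P⟩
  | upper =>
    refine ⟨k, m, Or.inr ⟨rfl, rfl⟩, fun P => ?_⟩
    refine Eq.trans ?_ (rcP_flip m k (fun ω => P (TouchRight k m ω)))
    apply rcP_congr
    intro ω hω
    rw [upper_flip]
    rfl
  | left =>
    refine ⟨m, k, Or.inl ⟨rfl, rfl⟩, fun P => ?_⟩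
    rw [← hlow k m P]
    refine Eq.trans ?_ (rcP_flip m k (fun ω => P (Touch Side.lower k m ω)))
    apply rcP_congr
    intro ω hω
    rw [left_flip]

/-- number of touched blocks as a function of the set of touching points -/
noncomputable def nb (n r : ℕ) (T : ℕ → Prop) : ℕ :=
  Set.ncard {i : ℕ | n ≤ i ∧ i < 2 * n ∧ ∃ h : ℕ, i * r ≤ h ∧ h < (i + 1) * r ∧ T h}

lemma blocks_eq (s : Side) (m k : ℕ) (ω : Finset Edg) (n r : ℕ) :
    blocks s m k ω n r = nb n r (Touch s m k ω) := rfl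

open Classical in
lemma nb_sum (n r : ℕ) (T : ℕ → Prop) : (nb n r T : ℝ) =
    ∑ i ∈ Finset.Ico n (2 * n), if (∃ h : ℕ, i * r ≤ h ∧ h < (i + 1) * r ∧ T h) then (1 : ℝ) else 0 := by
  have h1 : {i : ℕ | n ≤ i ∧ i < 2 * n ∧ ∃ h : ℕ, i * r ≤ h ∧ h < (i + 1) * r ∧ T h} =
      ↑((Finset.Ico n (2 * n)).filter fun i => ∃ h : ℕ, i * r ≤ h ∧ h < (i + 1) * r ∧ T h) := by
    ext i
    simp only [Finset.coe_filter, Finset.mem_Ico]
    constructor
    · rintro ⟨a, b, c⟩; exact ⟨⟨a, b⟩, c⟩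
    · rintro ⟨⟨a, b⟩, c⟩; exact ⟨a, b, c⟩
  rw [nb, h1, Set.ncard_coe_finset, Finset.card_filter]
  push_cast
  rfl

open Classical in
lemma rcE_card (m k : ℕ) (f : Finset Edg → ℝ) :
    rcE 1 m k f = (∑ ω ∈ (bulk m k).powerset, f ω) / 2 ^ (bulk m k).card := by
  have hw : ∀ ω, weight 1 m k ω = 1 := by
    intro ω
    unfold weight
    rw [Real.sqrt_one, one_pow, one_pow, one_mul]
  unfold rcE
  simp only [hw, Finset.sum_const, nsmul_eq_mul, mul_one, one_mul, Finset.card_powerset, Nat.cast_pow,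
    Nat.cast_ofNat]

/-- the mean number of touched blocks -/
lemma mean_blocks (s : Side) (m k n r : ℕ) : rcE 1 m k (fun ω => (blocks s m k ω n r : ℝ)) =
    ∑ i ∈ Finset.Ico n (2 * n), rcP 1 m k (fun ω => TouchBlock s m k ω r i) := by
  classical
  rw [rcE_card]
  simp only [blocks_eq, nb_sum]
  rw [Finset.sum_comm, Finset.sum_div]
  refine Finset.sum_congr rfl fun i _ => ?_
  rw [rcP_card]
  congr 1
  rw [Finset.sum_boole]
  rfl

/-- hitting probabilities of intervals -/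
theorem touch_interval : ∃ c C : ℝ, 0 < c ∧ 0 < C ∧ ∀ (s : Side) (m k y r : ℕ), 1 ≤ r → r ≤ y → 2 * y ≤ m →
    2 * y ≤ k →
    c * ((r : ℝ) / y) ^ (1/3 : ℝ) ≤ rcP 1 m k (fun ω => ∃ h : ℕ, y ≤ h ∧ h < y + r ∧ Touch s m k ω h) ∧
    rcP 1 m k (fun ω => ∃ h : ℕ, y ≤ h ∧ h < y + r ∧ Touch s m k ω h) ≤ C * ((r : ℝ) / y) ^ (1/3 : ℝ) := by
  obtain ⟨c, C, hc, hC, h⟩ := Hit_bounds
  refine ⟨c, C, hc, hC, fun s m k y r hr hry hm hk => ?_⟩
  obtain ⟨m', k', hmk, hT⟩ := transfer s m k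
  have h1 := hT (fun T => ∃ h : ℕ, y ≤ h ∧ h < y + r ∧ T h)
  rw [h1]
  have hm' : 2 * y ≤ m' := by rcases hmk with ⟨rfl, rfl⟩ | ⟨rfl, rfl⟩ <;> assumption
  have hk' : 2 * y ≤ k' := by rcases hmk with ⟨rfl, rfl⟩ | ⟨rfl, rfl⟩ <;> assumption
  rw [rcP_touch m' k' y r (by omega)]
  have h2 := h m' k' y r (by exact_mod_cast hr) (by exact_mod_cast hry) (by exact_mod_cast (by omega : y ≤ m'))
    (by exact_mod_cast hk')
  unfold cr at h2
  exact h2

/-- number of touched blocks -/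
theorem touch_count : ∃ c C δ : ℝ, 0 < c ∧ 0 < C ∧ 0 < δ ∧ ∀ (s : Side) (m k n r : ℕ), 1 ≤ n → 1 ≤ r →
    4 * (n * r) ≤ m → 4 * (n * r) ≤ k →
    δ ≤ rcP 1 m k (fun ω => c * (n : ℝ) ^ (2/3 : ℝ) ≤ blocks s m k ω n r ∧
      (blocks s m k ω n r : ℝ) ≤ C * (n : ℝ) ^ (2/3 : ℝ)) := by
  obtain ⟨c, C, δ, hc, hC, hδ, h⟩ := count_bounds
  refine ⟨c, C, δ, hc, hC, hδ, fun s m k n r hn hr hm hk => ?_⟩
  obtain ⟨m', k', hmk, hT⟩ := transfer s m k
  have h1 := hT (fun T => c * (n : ℝ) ^ (2/3 : ℝ) ≤ nb n r T ∧ (nb n r T : ℝ) ≤ C * (n : ℝ) ^ (2/3 : ℝ))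
  have h1' : rcP 1 m k (fun ω => c * (n : ℝ) ^ (2/3 : ℝ) ≤ blocks s m k ω n r ∧
      (blocks s m k ω n r : ℝ) ≤ C * (n : ℝ) ^ (2/3 : ℝ)) = _ := h1
  rw [h1']
  have hm' : 4 * (n * r) ≤ m' := by rcases hmk with ⟨rfl, rfl⟩ | ⟨rfl, rfl⟩ <;> assumption
  have hk' : 4 * (n * r) ≤ k' := by rcases hmk with ⟨rfl, rfl⟩ | ⟨rfl, rfl⟩ <;> assumption
  have h2 := h m' k' n r (by exact_mod_cast hn) (by exact_mod_cast hr)
    (by exact_mod_cast (by omega : 2 * (n * r) ≤ m')) (by exact_mod_cast hk')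
  refine h2.trans (le_of_eq ?_)
  have hcr : cr ((n : ℤ) : ℝ) ^ 2 = (n : ℝ) ^ (2/3 : ℝ) := by
    unfold cr
    push_cast
    rw [← Real.rpow_natCast, ← Real.rpow_mul (Nat.cast_nonneg n)]
    norm_num
  rw [rcP_one]
  unfold P2
  rw [Pr_local (bulk_sub m' k')]
  · apply Pr_congr
    intro ω hω
    have hNH : NH m' k' n r ω = (nb n r (TouchRight m' k' ω) : ℝ) := by
      classical
      rw [nb_sum, NH]
      refine (Finset.sum_nbij (fun i : ℕ => (i : ℤ)) ?_ ?_ ?_ ?_).symm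
      · intro i hi
        rw [Finset.mem_Ico] at hi ⊢
        omega
      · intro i _ j _ hij
        exact Int.ofNat_inj.1 hij
      · intro i hi
        rw [Finset.mem_coe, Finset.mem_Ico] at hi
        refine ⟨i.toNat, ?_, ?_⟩
        · rw [Finset.mem_coe, Finset.mem_Ico]
          omega
        · show ((i.toNat : ℕ) : ℤ) = i
          omega
      · intro i hi
        rw [Finset.mem_Ico] at hi
        have h3 : i * r + r ≤ k' + 1 := by
          have : (i + 1) * r ≤ (2 * n) * r := Nat.mul_le_mul_right r (by omega)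
          nlinarith
        have h4 := touch_Hit (m := m') (k := k') hω (y := i * r) (r := r) h3
        have h5 : (i + 1) * r = i * r + r := by ring
        rw [h5]
        push_cast at h4
        unfold ind
        by_cases hh : Hit m' k' ((i : ℤ) * r) r ω
        · rw [if_pos hh, if_pos (h4.2 hh)]
        · rw [if_neg hh, if_neg (fun hx => hh (h4.1 hx))]
    rw [hcr, hNH]
  · intro F _
    have hloc : NH m' k' n r F = NH m' k' n r (F ∩ bulk m' k') := by
      unfold NH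
      exact Finset.sum_congr rfl fun i _ => ind_congr Hit_bulk
    rw [hloc]

/-- the mean of the number of touched blocks -/
theorem touch_mean : ∃ c C : ℝ, 0 < c ∧ 0 < C ∧ ∀ (s : Side) (m k n r : ℕ), 1 ≤ n → 1 ≤ r →
    4 * (n * r) ≤ m → 4 * (n * r) ≤ k →
    c * (n : ℝ) ^ (2/3 : ℝ) ≤ rcE 1 m k (fun ω => (blocks s m k ω n r : ℝ)) ∧
    rcE 1 m k (fun ω => (blocks s m k ω n r : ℝ)) ≤ C * (n : ℝ) ^ (2/3 : ℝ) := by
  obtain ⟨c, C, hc, hC, h⟩ := touch_interval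
  refine ⟨c / 2, C, by positivity, hC, fun s m k n r hn hr hm hk => ?_⟩
  rw [mean_blocks]
  have hn0 : (0 : ℝ) < n := by exact_mod_cast hn
  have hr0 : (0 : ℝ) < r := by exact_mod_cast hr
  have hpow : (n : ℝ) * (n : ℝ) ^ (-(1/3) : ℝ) = (n : ℝ) ^ (2/3 : ℝ) := by
    nth_rewrite 1 [← Real.rpow_one (n : ℝ)]
    rw [← Real.rpow_add hn0]
    norm_num
  have hi : ∀ i ∈ Finset.Ico n (2 * n),
      c / 2 * (n : ℝ) ^ (-(1/3) : ℝ) ≤ rcP 1 m k (fun ω => TouchBlock s m k ω r i) ∧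
      rcP 1 m k (fun ω => TouchBlock s m k ω r i) ≤ C * (n : ℝ) ^ (-(1/3) : ℝ) := by
    intro i hi
    rw [Finset.mem_Ico] at hi
    have hi1 : 1 ≤ i := by omega
    have hir : i * r ≤ 2 * (n * r) := by nlinarith
    have h1 := h s m k (i * r) r hr (by nlinarith) (by omega) (by omega)
    have h5 : ∀ ω, TouchBlock s m k ω r i ↔ ∃ h : ℕ, i * r ≤ h ∧ h < i * r + r ∧ Touch s m k ω h := by
      intro ω
      unfold TouchBlock
      have h5 : (i + 1) * r = i * r + r := by ring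
      rw [h5]
    have h6 : rcP 1 m k (fun ω => TouchBlock s m k ω r i) =
        rcP 1 m k (fun ω => ∃ h : ℕ, i * r ≤ h ∧ h < i * r + r ∧ Touch s m k ω h) :=
      rcP_congr fun ω _ => h5 ω
    rw [h6]
    have hiR : (0 : ℝ) < i := by exact_mod_cast hi1
    have h7 : ((r : ℝ) / ((i * r : ℕ) : ℝ)) ^ (1/3 : ℝ) = (i : ℝ) ^ (-(1/3) : ℝ) := by
      push_cast
      rw [div_mul_cancel_right₀ hr0.ne', Real.inv_rpow hiR.le, Real.rpow_neg hiR.le]
    rw [h7] at h1
    have h8 : (i : ℝ) ^ (-(1/3) : ℝ) ≤ (n : ℝ) ^ (-(1/3) : ℝ) :=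
      Real.rpow_le_rpow_of_nonpos hn0 (by exact_mod_cast hi.1) (by norm_num)
    have h9 : (1/2 : ℝ) * (n : ℝ) ^ (-(1/3) : ℝ) ≤ (i : ℝ) ^ (-(1/3) : ℝ) := by
      have h10 : (2 * (n : ℝ)) ^ (-(1/3) : ℝ) ≤ (i : ℝ) ^ (-(1/3) : ℝ) := by
        refine Real.rpow_le_rpow_of_nonpos hiR ?_ (by norm_num)
        exact_mod_cast hi.2.le
      refine le_trans ?_ h10
      rw [Real.mul_rpow (by norm_num) hn0.le]
      refine mul_le_mul_of_nonneg_right ?_ (Real.rpow_nonneg hn0.le _)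
      have h11 : (2 : ℝ) ^ (-1 : ℝ) ≤ (2 : ℝ) ^ (-(1/3) : ℝ) :=
        Real.rpow_le_rpow_of_exponent_le (by norm_num) (by norm_num)
      rw [Real.rpow_neg_one] at h11
      linarith
    refine ⟨le_trans ?_ h1.1, h1.2.trans (mul_le_mul_of_nonneg_left h8 hC.le)⟩
    calc c / 2 * (n : ℝ) ^ (-(1/3) : ℝ) = c * (1/2 * (n : ℝ) ^ (-(1/3) : ℝ)) := by ring
      _ ≤ c * (i : ℝ) ^ (-(1/3) : ℝ) := mul_le_mul_of_nonneg_left h9 hc.le
  have hcard : ((Finset.Ico n (2 * n)).card : ℝ) = n := by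
    rw [Nat.card_Ico]
    have : 2 * n - n = n := by omega
    rw [this]
  constructor
  · calc c / 2 * (n : ℝ) ^ (2/3 : ℝ) = ∑ i ∈ Finset.Ico n (2 * n), c / 2 * (n : ℝ) ^ (-(1/3) : ℝ) := by
          rw [Finset.sum_const, nsmul_eq_mul, hcard, ← hpow]
          ring
      _ ≤ _ := Finset.sum_le_sum fun i hi' => (hi i hi').1
  · calc ∑ i ∈ Finset.Ico n (2 * n), rcP 1 m k (fun ω => TouchBlock s m k ω r i) ≤
          ∑ i ∈ Finset.Ico n (2 * n), C * (n : ℝ) ^ (-(1/3) : ℝ) := Finset.sum_le_sum fun i hi' => (hi i hi').2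
      _ = C * (n : ℝ) ^ (2/3 : ℝ) := by
          rw [Finset.sum_const, nsmul_eq_mul, hcard, ← hpow]
          ring

end Pool.Agent.Q217.FK
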