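import Pool.Agent.H985R2.BT7
import Pool.Agent.H985R3.IL.Defs

/-!
# Symmetries of the interface of the critical random-cluster model with `q = 1` in a rectangle (helper217)

`star`: planar duality together with the reflection that fixes the two ends of the interface;
`flip`: the transposition.
-/

set_option autoImplicit false

namespace Pool.Agent.Q217.FK

open H974 H985BT Finset

/-! ### duality -/

/-- vertices of the `m × k` rectangle to dual vertices of the `k × m` rectangle and vice versa -/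
def phi (m k : ℕ) (p : Vtx) : Vtx := (k - p.2, m - p.1)

/-- the edges -/
def psi (m k : ℕ) (e : Edg) : Edg := (k - e.2.1, m - e.1, e.2.2)

lemma phi_phi (m k : ℕ) (p : Vtx) : phi k m (phi m k p) = p := by
  unfold phi
  ext <;> simp

lemma psi_psi (m k : ℕ) (e : Edg) : psi k m (psi m k e) = e := by
  unfold psi
  obtain ⟨x, y, b⟩ := e
  simp

lemma psi_inj (m k : ℕ) : Function.Injective (psi m k) := fun e e' h => by
  rw [← psi_psi m k e, h, psi_psi]

lemma src_psi (m k : ℕ) (e : Edg) : src (psi m k e) = phi m k (dtgt e) := by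
  obtain ⟨x, y, b⟩ := e
  cases b <;> simp [psi, phi]

lemma tgt_psi (m k : ℕ) (e : Edg) : tgt (psi m k e) = phi m k (dsrc e) := by
  obtain ⟨x, y, b⟩ := e
  cases b
  · simp only [psi, phi, tgt_false, dsrc_false, Prod.mk.injEq]
    exact ⟨trivial, by ring⟩
  · simp only [psi, phi, tgt_true, dsrc_true, Prod.mk.injEq]
    exact ⟨by ring, trivial⟩

lemma dtgt_psi (m k : ℕ) (e : Edg) : dtgt (psi m k e) = phi m k (src e) := by
  obtain ⟨x, y, b⟩ := e
  cases b <;> simp [psi, phi]

lemma dsrc_psi (m k : ℕ) (e : Edg) : dsrc (psi m k e) = phi m k (tgt e) := by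
  obtain ⟨x, y, b⟩ := e
  cases b
  · simp only [psi, phi, tgt_false, dsrc_false, Prod.mk.injEq]
    exact ⟨by ring, trivial⟩
  · simp only [psi, phi, tgt_true, dsrc_true, Prod.mk.injEq]
    exact ⟨trivial, by ring⟩

lemma dual_reach {m k : ℕ} {F : Set Edg} {u v : Vtx} (h : Reach F u v) :
    DReach (psi m k '' F) (phi m k u) (phi m k v) := by
  induction h with
  | refl => exact DReach.refl _ _
  | tail _ hs ih =>
    obtain ⟨e, he, h⟩ := hs
    refine ih.trans (DAdj.reach ⟨psi m k e, ⟨e, he, rfl⟩, ?_⟩)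
    rw [dsrc_psi, dtgt_psi]
    rcases h with ⟨h1, h2⟩ | ⟨h1, h2⟩
    · right; rw [h1, h2]; exact ⟨rfl, rfl⟩
    · left; rw [h1, h2]; exact ⟨rfl, rfl⟩

lemma dual_dreach {m k : ℕ} {F : Set Edg} {u v : Vtx} (h : DReach F u v) :
    Reach (psi m k '' F) (phi m k u) (phi m k v) := by
  induction h with
  | refl => exact Reach.refl _ _
  | tail _ hs ih =>
    obtain ⟨e, he, h⟩ := hs
    refine ih.trans (Adj.reach ⟨psi m k e, ⟨e, he, rfl⟩, ?_⟩)
    rw [src_psi, tgt_psi]
    rcases h with ⟨h1, h2⟩ | ⟨h1, h2⟩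
    · right; rw [h1, h2]; exact ⟨rfl, rfl⟩
    · left; rw [h1, h2]; exact ⟨rfl, rfl⟩

lemma psi_image_image (m k : ℕ) (F : Set Edg) : psi k m '' (psi m k '' F) = F := by
  rw [Set.image_image]
  simp [psi_psi]

lemma reach_iff {m k : ℕ} {F : Set Edg} {u v : Vtx} :
    Reach F u v ↔ DReach (psi m k '' F) (phi m k u) (phi m k v) := by
  refine ⟨dual_reach, fun h => ?_⟩
  have := dual_dreach (m := k) (k := m) h
  rwa [psi_image_image, phi_phi, phi_phi] at this

lemma dreach_iff {m k : ℕ} {F : Set Edg} {u v : Vtx} :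
    DReach F u v ↔ Reach (psi m k '' F) (phi m k u) (phi m k v) := by
  refine ⟨dual_dreach, fun h => ?_⟩
  have := dual_reach (m := k) (k := m) h
  rwa [psi_image_image, phi_phi, phi_phi] at this

lemma psi_mem_bulk {m k : ℕ} {e : Edg} : psi m k e ∈ bulk k m ↔ e ∈ bulk m k := by
  obtain ⟨x, y, b⟩ := e
  rw [mem_bulk, mem_bulk]
  cases b
  · simp only [psi, Bool.false_eq_true, false_and, false_or, true_and]
    omega
  · simp only [psi, Bool.true_eq_false, false_and, or_false, true_and]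
    omega

lemma psi_mem_cut {m k : ℕ} {e : Edg} : psi m k e ∈ cut k m ↔ e ∈ wired m k := by
  obtain ⟨x, y, b⟩ := e
  rw [mem_cut, mem_wired]
  cases b
  · simp only [psi, Bool.false_eq_true, false_and, false_or, true_and]
    omega
  · simp only [psi, Bool.true_eq_false, false_and, or_false, true_and]
    omega

lemma psi_mem_wired {m k : ℕ} {e : Edg} : psi m k e ∈ wired k m ↔ e ∈ cut m k := by
  obtain ⟨x, y, b⟩ := e
  rw [mem_cut, mem_wired]
  cases b
  · simp only [psi, Bool.false_eq_true, false_and, false_or, true_and]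
    omega
  · simp only [psi, Bool.true_eq_false, false_and, or_false, true_and]
    omega

lemma psi_image_of {m k : ℕ} {A B : Finset Edg} (h : ∀ e, psi m k e ∈ B ↔ e ∈ A) :
    psi m k '' (A : Set Edg) = (B : Set Edg) := by
  ext e
  simp only [Set.mem_image, Finset.mem_coe]
  constructor
  · rintro ⟨e', he', rfl⟩
    exact (h e').2 he'
  · intro he
    refine ⟨psi k m e, ?_, psi_psi k m e⟩
    rw [← h, psi_psi]
    exact he

lemma psi_wired (m k : ℕ) : psi m k '' (wired m k : Set Edg) = (cut k m : Set Edg) :=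
  psi_image_of fun _ => psi_mem_cut

lemma psi_cut (m k : ℕ) : psi m k '' (cut m k : Set Edg) = (wired k m : Set Edg) :=
  psi_image_of fun _ => psi_mem_wired

/-- the dual configuration -/
noncomputable def star (m k : ℕ) (ω : Finset Edg) : Finset Edg := (bulk m k \ ω).image (psi m k)

lemma mem_star {m k : ℕ} {ω : Finset Edg} {e : Edg} :
    e ∈ star m k ω ↔ e ∈ bulk k m ∧ psi k m e ∉ ω := by
  unfold star
  simp only [Finset.mem_image, Finset.mem_sdiff]
  constructor
  · rintro ⟨e', ⟨h1, h2⟩, rfl⟩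
    rw [psi_psi]
    exact ⟨psi_mem_bulk.2 h1, h2⟩
  · rintro ⟨h1, h2⟩
    refine ⟨psi k m e, ⟨?_, h2⟩, psi_psi k m e⟩
    exact psi_mem_bulk.2 h1

lemma star_sub (m k : ℕ) (ω : Finset Edg) : star m k ω ⊆ bulk k m := fun _ h => (mem_star.1 h).1

lemma star_star {m k : ℕ} {ω : Finset Edg} (hω : ω ⊆ bulk m k) : star k m (star m k ω) = ω := by
  ext e
  rw [mem_star, mem_star, psi_psi]
  constructor
  · rintro ⟨h1, h2⟩
    by_contra h3
    exact h2 ⟨psi_mem_bulk.2 h1, h3⟩
  · intro h
    exact ⟨hω h, fun h2 => h2.2 h⟩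

lemma coe_star (m k : ℕ) (ω : Finset Edg) : (star m k ω : Set Edg) = psi m k '' (↑(bulk m k \ ω) : Set Edg) := by
  unfold star
  rw [Finset.coe_image]

lemma star_compl {m k : ℕ} {ω : Finset Edg} (hω : ω ⊆ bulk m k) :
    (↑(bulk k m \ star m k ω) : Set Edg) = psi m k '' (ω : Set Edg) := by
  ext e
  simp only [Finset.mem_coe, Finset.mem_sdiff, Set.mem_image]
  constructor
  · rintro ⟨h1, h2⟩
    refine ⟨psi k m e, ?_, psi_psi k m e⟩
    by_contra h3
    exact h2 (mem_star.2 ⟨h1, h3⟩)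
  · rintro ⟨e', he', rfl⟩
    refine ⟨psi_mem_bulk.2 (hω he'), fun h => ?_⟩
    have h2 := (mem_star.1 h).2
    rw [psi_psi] at h2
    exact h2 he'

lemma inWired_star {m k : ℕ} {ω : Finset Edg} (hω : ω ⊆ bulk m k) {v : Vtx} :
    InWired m k ω v ↔ InFree k m (star m k ω) (phi m k v) := by
  unfold InWired InFree
  rw [reach_iff (m := m) (k := k), Set.image_union, ← star_compl hω, psi_wired]
  have : phi m k (0, 0) = ((k : ℤ), (m : ℤ)) := by simp [phi]
  rw [this]

lemma inFree_star {m k : ℕ} {ω : Finset Edg} {f : Vtx} :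
    InFree m k ω f ↔ InWired k m (star m k ω) (phi m k f) := by
  unfold InWired InFree
  rw [dreach_iff (m := m) (k := k), Set.image_union, ← coe_star, psi_cut]
  have : phi m k ((m : ℤ), (k : ℤ)) = (0, 0) := by simp [phi]
  rw [this]

lemma interface_star {m k : ℕ} {ω : Finset Edg} (hω : ω ⊆ bulk m k) {v f : Vtx} :
    (v, f) ∈ Interface m k ω ↔ (phi m k f, phi m k v) ∈ Interface k m (star m k ω) := by
  have h1 : (f.1 = v.1 ∨ f.1 = v.1 - 1) ↔ ((phi m k v).2 = (phi m k f).2 ∨
      (phi m k v).2 = (phi m k f).2 - 1) := by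
    simp only [phi]
    omega
  have h2 : (f.2 = v.2 ∨ f.2 = v.2 - 1) ↔ ((phi m k v).1 = (phi m k f).1 ∨
      (phi m k v).1 = (phi m k f).1 - 1) := by
    simp only [phi]
    omega
  have h3 : InWired m k ω v ↔ InFree k m (star m k ω) (phi m k v) := inWired_star hω
  have h4 : InFree m k ω f ↔ InWired k m (star m k ω) (phi m k f) := inFree_star
  show (f.1 = v.1 ∨ f.1 = v.1 - 1) ∧ (f.2 = v.2 ∨ f.2 = v.2 - 1) ∧ InWired m k ω v ∧ InFree m k ω f ↔
    ((phi m k v).1 = (phi m k f).1 ∨ (phi m k v).1 = (phi m k f).1 - 1) ∧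
    ((phi m k v).2 = (phi m k f).2 ∨ (phi m k v).2 = (phi m k f).2 - 1) ∧
    InWired k m (star m k ω) (phi m k f) ∧ InFree k m (star m k ω) (phi m k v)
  constructor
  · rintro ⟨a, b, c, d⟩
    exact ⟨h2.1 b, h1.1 a, h4.1 d, h3.1 c⟩
  · rintro ⟨b, a, d, c⟩
    exact ⟨h1.2 a, h2.2 b, h3.2 c, h4.2 d⟩

/-! ### transposition -/

/-- transposition of vertices (and of dual vertices) -/
def tp (p : Vtx) : Vtx := (p.2, p.1)

/-- transposition of edges -/
def te (e : Edg) : Edg := (e.2.1, e.1, !e.2.2)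

lemma te_te (e : Edg) : te (te e) = e := by
  obtain ⟨x, y, b⟩ := e
  simp [te]

lemma tp_tp (p : Vtx) : tp (tp p) = p := rfl

lemma te_inj : Function.Injective te := fun e e' h => by
  rw [← te_te e, h, te_te]

lemma src_te (e : Edg) : src (te e) = tp (src e) := rfl

lemma tgt_te (e : Edg) : tgt (te e) = tp (tgt e) := by
  obtain ⟨x, y, b⟩ := e
  cases b <;> simp [te, tp]

lemma dtgt_te (e : Edg) : dtgt (te e) = tp (dtgt e) := rfl

lemma dsrc_te (e : Edg) : dsrc (te e) = tp (dsrc e) := by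
  obtain ⟨x, y, b⟩ := e
  cases b <;> simp [te, tp]

lemma flip_reach {F : Set Edg} {u v : Vtx} (h : Reach F u v) : Reach (te '' F) (tp u) (tp v) := by
  induction h with
  | refl => exact Reach.refl _ _
  | tail _ hs ih =>
    obtain ⟨e, he, h⟩ := hs
    refine ih.trans (Adj.reach ⟨te e, ⟨e, he, rfl⟩, ?_⟩)
    rw [src_te, tgt_te]
    rcases h with ⟨h1, h2⟩ | ⟨h1, h2⟩
    · left; rw [h1, h2]; exact ⟨rfl, rfl⟩
    · right; rw [h1, h2]; exact ⟨rfl, rfl⟩

lemma flip_dreach {F : Set Edg} {u v : Vtx} (h : DReach F u v) : DReach (te '' F) (tp u) (tp v) := by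
  induction h with
  | refl => exact DReach.refl _ _
  | tail _ hs ih =>
    obtain ⟨e, he, h⟩ := hs
    refine ih.trans (DAdj.reach ⟨te e, ⟨e, he, rfl⟩, ?_⟩)
    rw [dsrc_te, dtgt_te]
    rcases h with ⟨h1, h2⟩ | ⟨h1, h2⟩
    · left; rw [h1, h2]; exact ⟨rfl, rfl⟩
    · right; rw [h1, h2]; exact ⟨rfl, rfl⟩

lemma te_image_image (F : Set Edg) : te '' (te '' F) = F := by
  rw [Set.image_image]
  simp [te_te]

lemma reach_te {F : Set Edg} {u v : Vtx} : Reach F u v ↔ Reach (te '' F) (tp u) (tp v) := by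
  refine ⟨flip_reach, fun h => ?_⟩
  have := flip_reach h
  rwa [te_image_image, tp_tp, tp_tp] at this

lemma dreach_te {F : Set Edg} {u v : Vtx} : DReach F u v ↔ DReach (te '' F) (tp u) (tp v) := by
  refine ⟨flip_dreach, fun h => ?_⟩
  have := flip_dreach h
  rwa [te_image_image, tp_tp, tp_tp] at this

lemma te_mem_bulk {m k : ℕ} {e : Edg} : te e ∈ bulk k m ↔ e ∈ bulk m k := by
  obtain ⟨x, y, b⟩ := e
  rw [mem_bulk, mem_bulk]
  cases b
  · simp only [te, Bool.not_false, Bool.false_eq_true, Bool.true_eq_false, false_and, false_or, or_false, true_and] <;> omega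
  · simp only [te, Bool.not_true, Bool.false_eq_true, Bool.true_eq_false, false_and, false_or, or_false, true_and] <;> omega

lemma te_mem_cut {m k : ℕ} {e : Edg} : te e ∈ cut k m ↔ e ∈ cut m k := by
  obtain ⟨x, y, b⟩ := e
  rw [mem_cut, mem_cut]
  cases b
  · simp only [te, Bool.not_false, Bool.false_eq_true, Bool.true_eq_false, false_and, false_or, or_false, true_and] <;> omega
  · simp only [te, Bool.not_true, Bool.false_eq_true, Bool.true_eq_false, false_and, false_or, or_false, true_and] <;> omega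

lemma te_mem_wired {m k : ℕ} {e : Edg} : te e ∈ wired k m ↔ e ∈ wired m k := by
  obtain ⟨x, y, b⟩ := e
  rw [mem_wired, mem_wired]
  cases b
  · simp only [te, Bool.not_false, Bool.false_eq_true, Bool.true_eq_false, false_and, false_or, or_false, true_and] <;> omega
  · simp only [te, Bool.not_true, Bool.false_eq_true, Bool.true_eq_false, false_and, false_or, or_false, true_and] <;> omega

lemma te_image_of {A B : Finset Edg} (h : ∀ e, te e ∈ B ↔ e ∈ A) :
    te '' (A : Set Edg) = (B : Set Edg) := by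
  ext e
  simp only [Set.mem_image, Finset.mem_coe]
  constructor
  · rintro ⟨e', he', rfl⟩
    exact (h e').2 he'
  · intro he
    refine ⟨te e, ?_, te_te e⟩
    rw [← h, te_te]
    exact he

/-- the transposed configuration -/
noncomputable def flip (ω : Finset Edg) : Finset Edg := ω.image te

lemma mem_flip {ω : Finset Edg} {e : Edg} : e ∈ flip ω ↔ te e ∈ ω := by
  unfold flip
  simp only [Finset.mem_image]
  constructor
  · rintro ⟨e', h1, rfl⟩
    rw [te_te]
    exact h1
  · intro h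
    exact ⟨te e, h, te_te e⟩

lemma flip_flip (ω : Finset Edg) : flip (flip ω) = ω := by
  ext e
  rw [mem_flip, mem_flip, te_te]

lemma flip_sub {m k : ℕ} {ω : Finset Edg} (hω : ω ⊆ bulk m k) : flip ω ⊆ bulk k m := by
  intro e he
  rw [mem_flip] at he
  have := hω he
  rw [← te_mem_bulk, te_te] at this
  exact this

lemma inWired_flip {m k : ℕ} {ω : Finset Edg} {v : Vtx} :
    InWired m k ω v ↔ InWired k m (flip ω) (tp v) := by
  unfold InWired
  rw [reach_te, Set.image_union, te_image_of (A := wired m k) (B := wired k m) fun _ => te_mem_wired]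
  have : te '' (ω : Set Edg) = (flip ω : Set Edg) := by unfold flip; rw [Finset.coe_image]
  rw [this]
  rfl

lemma inFree_flip {m k : ℕ} {ω : Finset Edg} {v : Vtx} :
    InFree m k ω v ↔ InFree k m (flip ω) (tp v) := by
  unfold InFree
  rw [dreach_te, Set.image_union, te_image_of (A := cut m k) (B := cut k m) fun _ => te_mem_cut]
  have : te '' (↑(bulk m k \ ω) : Set Edg) = (↑(bulk k m \ flip ω) : Set Edg) := by
    apply te_image_of
    intro e
    rw [Finset.mem_sdiff, Finset.mem_sdiff, te_mem_bulk, mem_flip, te_te]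
  rw [this]
  rfl

lemma interface_flip {m k : ℕ} {ω : Finset Edg} {v f : Vtx} :
    (v, f) ∈ Interface m k ω ↔ (tp v, tp f) ∈ Interface k m (flip ω) := by
  have h3 : InWired m k ω v ↔ InWired k m (flip ω) (tp v) := inWired_flip
  have h4 : InFree m k ω f ↔ InFree k m (flip ω) (tp f) := inFree_flip
  show (f.1 = v.1 ∨ f.1 = v.1 - 1) ∧ (f.2 = v.2 ∨ f.2 = v.2 - 1) ∧ InWired m k ω v ∧ InFree m k ω f ↔
    (f.2 = v.2 ∨ f.2 = v.2 - 1) ∧ (f.1 = v.1 ∨ f.1 = v.1 - 1) ∧
    InWired k m (flip ω) (tp v) ∧ InFree k m (flip ω) (tp f)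
  constructor
  · rintro ⟨a, b, c, d⟩
    exact ⟨b, a, h3.1 c, h4.1 d⟩
  · rintro ⟨b, a, c, d⟩
    exact ⟨a, b, h3.2 c, h4.2 d⟩

/-! ### probabilities -/

open Classical in
lemma rcP_card (m k : ℕ) (A : Finset Edg → Prop) :
    rcP 1 m k A = (((bulk m k).powerset.filter A).card : ℝ) / 2 ^ (bulk m k).card := by
  have hw : ∀ ω, weight 1 m k ω = 1 := by
    intro ω
    unfold weight
    rw [Real.sqrt_one, one_pow, one_pow, one_mul]
  unfold rcP
  simp only [hw, Finset.sum_const, nsmul_eq_mul, mul_one, Finset.card_powerset]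
  push_cast
  rfl

lemma card_bulk (m k : ℕ) : (bulk m k).card = (bulk k m).card := by
  apply Finset.card_bij (fun e _ => te e)
  · intro e he
    exact te_mem_bulk.2 he
  · intro e _ e' _ h
    exact te_inj h
  · intro e he
    refine ⟨te e, ?_, te_te e⟩
    exact te_mem_bulk.2 he

lemma rcP_star (m k : ℕ) (A : Finset Edg → Prop) :
    rcP 1 m k (fun ω => A (star m k ω)) = rcP 1 k m A := by
  classical
  rw [rcP_card, rcP_card, card_bulk m k]
  congr 2
  apply Finset.card_bij (fun ω _ => star m k ω)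
  · intro ω hω
    rw [Finset.mem_filter, Finset.mem_powerset] at hω ⊢
    exact ⟨star_sub m k ω, hω.2⟩
  · intro ω hω ω' hω' h
    rw [Finset.mem_filter, Finset.mem_powerset] at hω hω'
    rw [← star_star hω.1, h, star_star hω'.1]
  · intro ω hω
    rw [Finset.mem_filter, Finset.mem_powerset] at hω
    refine ⟨star k m ω, ?_, star_star hω.1⟩
    rw [Finset.mem_filter, Finset.mem_powerset]
    refine ⟨star_sub k m ω, ?_⟩
    rw [star_star hω.1]
    exact hω.2

lemma rcP_flip (m k : ℕ) (A : Finset Edg → Prop) :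
    rcP 1 m k (fun ω => A (flip ω)) = rcP 1 k m A := by
  classical
  rw [rcP_card, rcP_card, card_bulk m k]
  congr 2
  apply Finset.card_bij (fun ω _ => flip ω)
  · intro ω hω
    rw [Finset.mem_filter, Finset.mem_powerset] at hω ⊢
    exact ⟨flip_sub hω.1, hω.2⟩
  · intro ω hω ω' hω' h
    rw [← flip_flip ω, h, flip_flip]
  · intro ω hω
    rw [Finset.mem_filter, Finset.mem_powerset] at hω
    refine ⟨flip ω, ?_, flip_flip ω⟩
    rw [Finset.mem_filter, Finset.mem_powerset]
    refine ⟨flip_sub hω.1, ?_⟩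
    rw [flip_flip]
    exact hω.2

lemma rcP_congr {m k : ℕ} {A B : Finset Edg → Prop} (h : ∀ ω ⊆ bulk m k, (A ω ↔ B ω)) :
    rcP 1 m k A = rcP 1 m k B := by
  classical
  rw [rcP_card, rcP_card]
  congr 2
  apply congrArg
  apply Finset.filter_congr
  intro ω hω
  exact h ω (Finset.mem_powerset.1 hω)

end Pool.Agent.Q217.FK
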